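import Pool.Graph.R_seed8.R970.FB.Main

set_option autoImplicit false

open scoped ENNReal NNReal Topology
open MeasureTheory ProbabilityTheory Set Filter
open Pool.Agent.R970.FB

namespace Pool.Agent.KS6_56.BD

section key

variable {Ω₁ Ω₀ A : Type*} [MeasurableSpace Ω₁] [MeasurableSpace Ω₀] [MeasurableSpace A]
  {P₁ : Measure Ω₁} {P₀ : Measure Ω₀} [IsProbabilityMeasure P₁] [IsProbabilityMeasure P₀] {k : ℕ}

/-- one function of the first point and `k` copies of a function of the first point and of one
of the other points -/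
def fam (k : ℕ) (F : Ω₁ → A) (G : Ω₁ → Ω₀ → A) : Fin (k + 1) → Ω₁ × (Fin k → Ω₀) → A :=
  Fin.cons (fun ω => F ω.1) fun i ω => G ω.1 (ω.2 i)

lemma measurable_fam {F : Ω₁ → A} (hF : Measurable F) {G : Ω₁ → Ω₀ → A}
    (hG : Measurable (Function.uncurry G)) (i : Fin (k + 1)) : Measurable (fam k F G i) := by
  refine Fin.cases ?_ (fun j => ?_) i
  · exact hF.comp measurable_fst
  · exact hG.comp (measurable_fst.prodMk ((measurable_pi_apply j).comp measurable_snd))

lemma skew {F : Ω₁ → A} (hF : Measurable F) {G : Ω₁ → Ω₀ → A}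
    (hG : Measurable (Function.uncurry G)) {ν : Measure A} [IsProbabilityMeasure ν]
    (hν : ∀ ω, P₀.map (G ω) = ν) :
    MeasurePreserving (fun p : Ω₁ × (Fin k → Ω₀) => (F p.1, fun i => G p.1 (p.2 i)))
      (P₁.prod (Measure.pi fun _ : Fin k => P₀)) ((P₁.map F).prod (Measure.pi fun _ => ν)) := by
  refine MeasurePreserving.skew_product (g := fun (ω : Ω₁) (x : Fin k → Ω₀) (i : Fin k) => G ω (x i))
    (hF.measurePreserving P₁) ?_ (Eventually.of_forall fun ω => ?_)
  · refine measurable_pi_lambda _ fun i => ?_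
    exact hG.comp (measurable_fst.prodMk ((measurable_pi_apply i).comp measurable_snd))
  · have h := Measure.pi_map_pi (μ := fun _ : Fin k => P₀) (f := fun _ => G ω)
      (fun i => (hG.comp measurable_prodMk_left).aemeasurable)
    rw [h, hν ω]

theorem fam_law {F : Ω₁ → A} (hF : Measurable F) {G : Ω₁ → Ω₀ → A}
    (hG : Measurable (Function.uncurry G)) {ν : Measure A} [IsProbabilityMeasure ν]
    (hν : ∀ ω, P₀.map (G ω) = ν) (i : Fin (k + 1)) :
    (P₁.prod (Measure.pi fun _ : Fin k => P₀)).map (fam k F G i) =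
      (Fin.cons (P₁.map F) (fun _ => ν) : Fin (k + 1) → Measure A) i := by
  have hs := skew (k := k) (P₁ := P₁) (P₀ := P₀) hF hG hν
  have : IsProbabilityMeasure (P₁.map F) := Measure.isProbabilityMeasure_map hF.aemeasurable
  refine Fin.cases ?_ (fun j => ?_) i
  · have h1 := congrArg (fun μ : Measure (A × (Fin k → A)) => μ.map Prod.fst) hs.map_eq
    beta_reduce at h1
    rw [Measure.map_map measurable_fst hs.measurable, Measure.map_fst_prod] at h1
    simp only [measure_univ, one_smul] at h1
    exact h1
  · have h1 := congrArg (fun μ : Measure (A × (Fin k → A)) =>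
      μ.map (fun p : A × (Fin k → A) => p.2 j)) hs.map_eq
    beta_reduce at h1
    have h2 : ((P₁.map F).prod (Measure.pi fun _ : Fin k => ν)).map
        (fun p : A × (Fin k → A) => p.2 j) = ν := by
      have e : (fun p : A × (Fin k → A) => p.2 j) = (fun x : Fin k → A => x j) ∘ Prod.snd := rfl
      rw [e, ← Measure.map_map (measurable_pi_apply j) measurable_snd, Measure.map_snd_prod]
      simp only [measure_univ, one_smul]
      exact (measurePreserving_eval (fun _ : Fin k => ν) j).map_eq
    have hm : Measurable (fun p : A × (Fin k → A) => p.2 j) :=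
      (measurable_pi_apply j).comp measurable_snd
    rw [h2, Measure.map_map hm hs.measurable] at h1
    exact h1

theorem fam_indep {F : Ω₁ → A} (hF : Measurable F) {G : Ω₁ → Ω₀ → A}
    (hG : Measurable (Function.uncurry G)) {ν : Measure A} [IsProbabilityMeasure ν]
    (hν : ∀ ω, P₀.map (G ω) = ν) :
    iIndepFun (fam k F G) (P₁.prod (Measure.pi fun _ : Fin k => P₀)) := by
  have hs := skew (k := k) (P₁ := P₁) (P₀ := P₀) hF hG hν
  have : IsProbabilityMeasure (P₁.map F) := Measure.isProbabilityMeasure_map hF.aemeasurable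
  rw [iIndepFun_iff_map_fun_eq_pi_map fun i => (measurable_fam hF hG i).aemeasurable]
  symm
  refine Measure.pi_eq fun s hsm => ?_
  rw [Measure.map_apply (measurable_pi_lambda _ fun i => measurable_fam hF hG i)
    (MeasurableSet.univ_pi hsm)]
  have e : (fun ω i => fam k F G i ω) ⁻¹' (Set.pi univ s) =
      (fun p : Ω₁ × (Fin k → Ω₀) => (F p.1, fun i => G p.1 (p.2 i))) ⁻¹'
        (s 0 ×ˢ Set.pi univ fun j => s (Fin.succ j)) := by
    ext p
    simp only [Set.mem_preimage, Set.mem_pi, Set.mem_univ, true_imp_iff, Set.mem_prod,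
      Fin.forall_fin_succ, fam, Fin.cons_zero, Fin.cons_succ]
  rw [e, hs.measure_preimage ((hsm 0).prod (MeasurableSet.univ_pi fun j =>
    hsm (Fin.succ j))).nullMeasurableSet, Measure.prod_prod, Measure.pi_pi, Fin.prod_univ_succ,
    fam_law hF hG hν 0]
  congr 1
  refine Finset.prod_congr rfl fun j _ => ?_
  rw [fam_law hF hG hν (Fin.succ j)]
  rfl

end key

/-- componentwise independence of pairs gives independence of the vectors -/
theorem indep_vec {ι : Type*} [Fintype ι] {Ω α β : Type*} [MeasurableSpace Ω] [MeasurableSpace α]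
    [MeasurableSpace β] {P : Measure Ω} [IsProbabilityMeasure P] {f : ι → Ω → α} {g : ι → Ω → β}
    (hf : ∀ i, Measurable (f i)) (hg : ∀ i, Measurable (g i))
    (hi : iIndepFun (fun i ω => (f i ω, g i ω)) P) (h : ∀ i, IndepFun (f i) (g i) P) :
    IndepFun (fun ω i => f i ω) (fun ω i => g i ω) P := by
  -- the joint law of all the pairs
  have h1 := (iIndepFun_iff_map_fun_eq_pi_map
    (fun i => ((hf i).prodMk (hg i)).aemeasurable)).1 hi
  have h2 : ∀ i, P.map (fun ω => (f i ω, g i ω)) = (P.map (f i)).prod (P.map (g i)) := fun i =>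
    (indepFun_iff_map_prod_eq_prod_map_map (hf i).aemeasurable (hg i).aemeasurable).1 (h i)
  simp only [h2] at h1
  have hpa : ∀ i, IsProbabilityMeasure (P.map (f i)) := fun i =>
    Measure.isProbabilityMeasure_map (hf i).aemeasurable
  have hpb : ∀ i, IsProbabilityMeasure (P.map (g i)) := fun i =>
    Measure.isProbabilityMeasure_map (hg i).aemeasurable
  have hindA := (iIndepFun_iff_map_fun_eq_pi_map (fun i => (hf i).aemeasurable)).1
    (hi.comp (fun _ => Prod.fst) (fun _ => measurable_fst))
  have hindB := (iIndepFun_iff_map_fun_eq_pi_map (fun i => (hg i).aemeasurable)).1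
    (hi.comp (fun _ => Prod.snd) (fun _ => measurable_snd))
  have h3 := (measurePreserving_arrowProdEquivProdArrow α β ι
    (fun i => P.map (f i)) (fun i => P.map (g i))).map_eq
  rw [← h1, Measure.map_map (MeasurableEquiv.measurable _) (measurable_pi_lambda _ fun i =>
    (hf i).prodMk (hg i))] at h3
  have hmA : Measurable (fun ω i => f i ω) := measurable_pi_lambda _ hf
  have hmB : Measurable (fun ω i => g i ω) := measurable_pi_lambda _ hg
  rw [indepFun_iff_map_prod_eq_prod_map_map hmA.aemeasurable hmB.aemeasurable]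
  have h5 : P.map (fun ω i => f i ω) = Measure.pi fun i => P.map (f i) := hindA
  have h6 : P.map (fun ω i => g i ω) = Measure.pi fun i => P.map (g i) := hindB
  rw [h5, h6]
  exact h3

end Pool.Agent.KS6_56.BD
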