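import Pool.Agent.KS6_56.BD.A

set_option autoImplicit false

open scoped ENNReal NNReal Topology
open MeasureTheory ProbabilityTheory Set Filter
open Pool.Agent.R970.FB

namespace Pool.Agent.KS6_56.BD

/-! A process in `ℝ^d` is given by its coordinates `X i`, `i < d`. The processes seen from a random
time `T` are `fwd (X i) T t ω = X i (T ω + t) ω - X i (T ω) ω` and
`bwd (X i) T t ω = X i (T ω - t) ω - X i (T ω) ω`, `t ≥ 0`. -/

/-- Standard Brownian motion in `ℝ^d`: the coordinates are independent standard Brownian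
motions. -/
def IsBMd {Ω : Type*} [MeasurableSpace Ω] {d : ℕ} (Z : Fin d → ℝ≥0 → Ω → ℝ) (P : Measure Ω) :
    Prop :=
  (∀ i, IsBrownianReal (Z i) P) ∧ iIndepFun (fun i ω (t : ℝ≥0) => Z i t ω) P

/-- Forward Brownian motion in `ℝ^d`. -/
def IsFBMd {Ω : Type*} [MeasurableSpace Ω] {d : ℕ} (X : Fin d → ℝ → Ω → ℝ) (P : Measure Ω) :
    Prop :=
  ∃ S : ℕ → Ω → ℝ, (∀ n, Measurable (S n)) ∧
    (∀ᵐ ω ∂P, Tendsto (fun n => S n ω) atTop atBot) ∧
    ∀ n, IsBMd (fun i => fwd (X i) (S n)) P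

/-- Backward Brownian motion in `ℝ^d`. -/
def IsBBMd {Ω : Type*} [MeasurableSpace Ω] {d : ℕ} (X : Fin d → ℝ → Ω → ℝ) (P : Measure Ω) :
    Prop := IsFBMd (fun i t => X i (-t)) P

/-- The forward and the backward process from the random time `T` are independent. -/
def IndepAtd {Ω : Type*} [MeasurableSpace Ω] {d : ℕ} (X : Fin d → ℝ → Ω → ℝ) (T : Ω → ℝ)
    (P : Measure Ω) : Prop :=
  IndepFun (fun ω (i : Fin d) (t : ℝ≥0) => fwd (X i) T t ω)
    (fun ω (i : Fin d) (t : ℝ≥0) => bwd (X i) T t ω) P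

/-- Two-sided Brownian motion in `ℝ^d`. -/
def Is2BMd {Ω : Type*} [MeasurableSpace Ω] {d : ℕ} (X : Fin d → ℝ → Ω → ℝ) (P : Measure Ω) :
    Prop :=
  ∃ S : Ω → ℝ, Measurable S ∧ IsBMd (fun i => fwd (X i) S) P ∧ IsBMd (fun i => bwd (X i) S) P ∧
    IndepAtd X S P

section prod

variable {Ω₁ Ω₀ : Type} [MeasurableSpace Ω₁] [MeasurableSpace Ω₀]
  {P₁ : Measure Ω₁} {P₀ : Measure Ω₀} [IsProbabilityMeasure P₁] [IsProbabilityMeasure P₀]

/-- the process with first coordinate `X₁` and `k` independent coordinates with the law of `Z` -/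
def mk (k : ℕ) (X₁ : ℝ → Ω₁ → ℝ) (Z : ℝ → Ω₀ → ℝ) : Fin (k + 1) → ℝ → Ω₁ × (Fin k → Ω₀) → ℝ :=
  Fin.cons (fun t ω => X₁ t ω.1) fun i t ω => Z t (ω.2 i)

lemma mk_neg (k : ℕ) (X₁ : ℝ → Ω₁ → ℝ) (Z : ℝ → Ω₀ → ℝ) :
    (fun i t => mk k X₁ Z i (-t)) = mk k (fun t => X₁ (-t)) (fun t => Z (-t)) := by
  funext i
  refine Fin.cases rfl (fun _ => rfl) i

lemma mk_fwd (k : ℕ) (X₁ : ℝ → Ω₁ → ℝ) (Z : ℝ → Ω₀ → ℝ) (S : Ω₁ → ℝ) (i : Fin (k + 1))
    (ω : Ω₁ × (Fin k → Ω₀)) :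
    (fun t : ℝ≥0 => fwd (mk k X₁ Z i) (fun ω => S ω.1) t ω) =
      fam k (fun ω (t : ℝ≥0) => fwd X₁ S t ω) (fun ω ω' (t : ℝ≥0) => Z (S ω + t) ω' - Z (S ω) ω')
        i ω := by
  refine Fin.cases rfl (fun _ => rfl) i

variable {X₁ : ℝ → Ω₁ → ℝ} {Z : ℝ → Ω₀ → ℝ}

lemma measurable_fwd (hm : ∀ t, Measurable (X₁ t)) (hc : ∀ ω, Continuous (X₁ · ω))
    {S : Ω₁ → ℝ} (hS : Measurable S) (t : ℝ≥0) : Measurable (fwd X₁ S t) := by
  have h := measurable_joint hm hc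
  exact (h.comp (measurable_id.prodMk (hS.add_const _))).sub (h.comp (measurable_id.prodMk hS))

lemma measurable_zz (hm : ∀ t, Measurable (Z t)) (hc : ∀ ω, Continuous (Z · ω))
    {S : Ω₁ → ℝ} (hS : Measurable S) :
    Measurable (Function.uncurry fun (ω : Ω₁) (ω' : Ω₀) (t : ℝ≥0) =>
      Z (S ω + t) ω' - Z (S ω) ω') := by
  have h := measurable_joint hm hc
  refine measurable_pi_lambda _ fun t => ?_
  exact (h.comp (measurable_snd.prodMk ((hS.comp measurable_fst).add_const _))).sub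
    (h.comp (measurable_snd.prodMk (hS.comp measurable_fst)))

lemma continuous_mk (k : ℕ) (hc : ∀ ω, Continuous (X₁ · ω)) (hZc : ∀ ω, Continuous (Z · ω))
    (i : Fin (k + 1)) (ω : Ω₁ × (Fin k → Ω₀)) : Continuous (mk k X₁ Z i · ω) := by
  refine Fin.cases ?_ (fun j => ?_) i
  · exact hc ω.1
  · exact hZc (ω.2 j)

lemma measurable_mk (k : ℕ) (hm : ∀ t, Measurable (X₁ t)) (hZm : ∀ t, Measurable (Z t))
    (i : Fin (k + 1)) (t : ℝ) : Measurable (mk k X₁ Z i t) := by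
  refine Fin.cases ?_ (fun j => ?_) i
  · exact (hm t).comp measurable_fst
  · exact (hZm t).comp ((measurable_pi_apply j).comp measurable_snd)

theorem fwd_bm (k : ℕ) (hm : ∀ t, Measurable (X₁ t)) (hc : ∀ ω, Continuous (X₁ · ω))
    (hZm : ∀ t, Measurable (Z t)) (hZc : ∀ ω, Continuous (Z · ω)) (hZ : IsTS Z P₀)
    {S : Ω₁ → ℝ} (hS : Measurable S) (h : IsBrownianReal (fwd X₁ S) P₁) :
    IsBMd (fun i => fwd (mk k X₁ Z i) fun ω => S ω.1) (P₁.prod (Measure.pi fun _ => P₀)) := by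
  obtain ⟨W, hW⟩ := exists_isW
  have hWp : IsProbabilityMeasure W := by
    rw [← (isPreBrownianReal_iff hW fun t => measurable_fwd hm hc hS t).1 h.toIsPreBrownianReal]
    exact Measure.isProbabilityMeasure_map
      (measurable_pi_lambda _ fun t => measurable_fwd hm hc hS t).aemeasurable
  have hF : Measurable (fun ω (t : ℝ≥0) => fwd X₁ S t ω) :=
    measurable_pi_lambda _ fun t => measurable_fwd hm hc hS t
  have hG := measurable_zz hZm hZc hS
  have hν : ∀ ω, P₀.map ((fun (ω : Ω₁) (ω' : Ω₀) (t : ℝ≥0) => Z (S ω + t) ω' - Z (S ω) ω') ω) = W :=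
    fun ω => (isPreBrownianReal_iff hW fun t => (hZm _).sub (hZm _)).1 (hZ.fwd (S ω))
  have hF1 := (isPreBrownianReal_iff hW fun t => measurable_fwd hm hc hS t).1 h.toIsPreBrownianReal
  have e : (fun i (ω : Ω₁ × (Fin k → Ω₀)) (t : ℝ≥0) =>
      fwd (mk k X₁ Z i) (fun ω => S ω.1) t ω) = fam k (fun ω (t : ℝ≥0) => fwd X₁ S t ω)
        (fun ω ω' (t : ℝ≥0) => Z (S ω + t) ω' - Z (S ω) ω') := by
    funext i ω
    exact mk_fwd k X₁ Z S i ω
  refine ⟨fun i => ⟨?_, Eventually.of_forall fun ω => ?_⟩, ?_⟩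
  · have hmi : ∀ t, Measurable (fwd (mk k X₁ Z i) (fun ω : Ω₁ × (Fin k → Ω₀) => S ω.1) t) := by
      intro t
      have h1 := measurable_fam (k := k) hF hG i
      rw [← congrFun e i] at h1
      exact (measurable_pi_apply t).comp h1
    rw [isPreBrownianReal_iff hW hmi]
    have h2 := fam_law (k := k) (P₁ := P₁) hF hG hν i
    rw [← congrFun e i] at h2
    rw [h2]
    refine Fin.cases ?_ (fun j => ?_) i
    · exact hF1
    · rfl
  · have h3 := continuous_mk k hc hZc i ω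
    exact (h3.comp (by fun_prop : Continuous fun t : ℝ≥0 => S ω.1 + (t : ℝ))).sub continuous_const
  · rw [e]
    exact fam_indep hF hG hν

end prod

end Pool.Agent.KS6_56.BD
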