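import Pool.Agent.KS6_56.BD.B

set_option autoImplicit false

open scoped ENNReal NNReal Topology
open MeasureTheory ProbabilityTheory Set Filter
open Pool.Agent.R970.FB

namespace Pool.Agent.KS6_56.BD

lemma isTS_neg {Ω : Type*} [MeasurableSpace Ω] {P : Measure Ω} {Y : ℝ → Ω → ℝ} (h : IsTS Y P) :
    IsTS (fun t => Y (-t)) P := by
  refine ⟨h.gauss.comp_right (fun t : ℝ => -t), fun t => h.mean _, fun s t => ?_⟩
  rw [h.cov, abs_neg, abs_neg, show -s - -t = -(s - t) by ring, abs_neg]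

section prod

variable {Ω₁ Ω₀ : Type} [MeasurableSpace Ω₁] [MeasurableSpace Ω₀]
  {P₁ : Measure Ω₁} {P₀ : Measure Ω₀} [IsProbabilityMeasure P₁] [IsProbabilityMeasure P₀]
  {X₁ : ℝ → Ω₁ → ℝ} {Z : ℝ → Ω₀ → ℝ}

theorem isFBMd_mk (k : ℕ) (hm : ∀ t, Measurable (X₁ t)) (hc : ∀ ω, Continuous (X₁ · ω))
    (hZm : ∀ t, Measurable (Z t)) (hZc : ∀ ω, Continuous (Z · ω)) (hZ : IsTS Z P₀)
    (h : IsFBM X₁ P₁) : IsFBMd (mk k X₁ Z) (P₁.prod (Measure.pi fun _ => P₀)) := by
  obtain ⟨S, hS, hS2, hS3⟩ := h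
  refine ⟨fun n ω => S n ω.1, fun n => (hS n).comp measurable_fst, ?_, fun n =>
    fwd_bm k hm hc hZm hZc hZ (hS n) (hS3 n)⟩
  exact Measure.quasiMeasurePreserving_fst.ae hS2

theorem isBBMd_mk (k : ℕ) (hm : ∀ t, Measurable (X₁ t)) (hc : ∀ ω, Continuous (X₁ · ω))
    (hZm : ∀ t, Measurable (Z t)) (hZc : ∀ ω, Continuous (Z · ω)) (hZ : IsTS Z P₀)
    (h : IsBBM X₁ P₁) : IsBBMd (mk k X₁ Z) (P₁.prod (Measure.pi fun _ => P₀)) := by
  unfold IsBBMd
  rw [mk_neg]
  refine isFBMd_mk k (fun t => hm _) (fun ω => ?_) (fun t => hZm _) (fun ω => ?_) (isTS_neg hZ) h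
  · exact (hc ω).comp (by fun_prop : Continuous fun t : ℝ => -t)
  · exact (hZc ω).comp (by fun_prop : Continuous fun t : ℝ => -t)

theorem indepAtd_mk (k : ℕ) (hm : ∀ t, Measurable (X₁ t)) (hc : ∀ ω, Continuous (X₁ · ω))
    (hZm : ∀ t, Measurable (Z t)) (hZc : ∀ ω, Continuous (Z · ω)) (hZ : IsTS Z P₀)
    (h : IndepAt X₁ (fun _ => 0) P₁) :
    IndepAtd (mk k X₁ Z) (fun _ => 0) (P₁.prod (Measure.pi fun _ => P₀)) := by
  -- the pairs
  let F : Ω₁ → (ℝ≥0 → ℝ) × (ℝ≥0 → ℝ) := fun ω =>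
    (fun t => fwd X₁ (fun _ => 0) t ω, fun t => bwd X₁ (fun _ => 0) t ω)
  let G : Ω₁ → Ω₀ → (ℝ≥0 → ℝ) × (ℝ≥0 → ℝ) := fun _ ω' =>
    (fun t => Z (0 + t) ω' - Z 0 ω', fun t => Z (0 - t) ω' - Z 0 ω')
  have hF1 : Measurable (fun ω (t : ℝ≥0) => fwd X₁ (fun _ => 0) t ω) :=
    measurable_pi_lambda _ fun t => (hm _).sub (hm _)
  have hF2 : Measurable (fun ω (t : ℝ≥0) => bwd X₁ (fun _ => 0) t ω) :=
    measurable_pi_lambda _ fun t => (hm _).sub (hm _)
  have hF : Measurable F := hF1.prodMk hF2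
  have hG1 : Measurable (fun ω' (t : ℝ≥0) => Z (0 + t) ω' - Z 0 ω') :=
    measurable_pi_lambda _ fun t => (hZm _).sub (hZm _)
  have hG2 : Measurable (fun ω' (t : ℝ≥0) => Z (0 - t) ω' - Z 0 ω') :=
    measurable_pi_lambda _ fun t => (hZm _).sub (hZm _)
  have hG : Measurable (Function.uncurry G) := (hG1.prodMk hG2).comp measurable_snd
  let ν : Measure ((ℝ≥0 → ℝ) × (ℝ≥0 → ℝ)) := P₀.map fun ω' =>
    ((fun (t : ℝ≥0) => Z (0 + t) ω' - Z 0 ω'), fun (t : ℝ≥0) => Z (0 - t) ω' - Z 0 ω')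
  have hν' : IsProbabilityMeasure ν :=
    Measure.isProbabilityMeasure_map (hG1.prodMk hG2).aemeasurable
  have hν : ∀ ω, P₀.map (G ω) = ν := fun _ => rfl
  have e : (fun i (ω : Ω₁ × (Fin k → Ω₀)) =>
      ((fun (t : ℝ≥0) => fwd (mk k X₁ Z i) (fun _ => 0) t ω),
        fun (t : ℝ≥0) => bwd (mk k X₁ Z i) (fun _ => 0) t ω)) = fam k F G := by
    funext i ω
    refine Fin.cases rfl (fun _ => rfl) i
  have hind := fam_indep (k := k) (P₁ := P₁) (P₀ := P₀) hF hG hν
  have hmi := fun i => measurable_fam (k := k) hF hG i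
  simp only [← e] at hind hmi
  refine indep_vec (fun i => measurable_fst.comp (hmi i)) (fun i => measurable_snd.comp (hmi i))
    hind fun i => ?_
  have hl := fam_law (k := k) (P₁ := P₁) (P₀ := P₀) hF hG hν i
  rw [← congrFun e i] at hl
  have key : (P₁.prod (Measure.pi fun _ : Fin k => P₀)).map
      (fun (ω : Ω₁ × (Fin k → Ω₀)) => ((fun (t : ℝ≥0) => fwd (mk k X₁ Z i) (fun _ => 0) t ω),
        fun (t : ℝ≥0) => bwd (mk k X₁ Z i) (fun _ => 0) t ω)) =
      (((Fin.cons (P₁.map F) (fun _ => ν) : Fin (k + 1) → Measure _) i).map Prod.fst).prod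
        (((Fin.cons (P₁.map F) (fun _ => ν) : Fin (k + 1) → Measure _) i).map Prod.snd) := by
    rw [hl]
    refine Fin.cases ?_ (fun j => ?_) i
    · simp only [Fin.cons_zero]
      rw [Measure.map_map measurable_fst hF, Measure.map_map measurable_snd hF]
      exact (indepFun_iff_map_prod_eq_prod_map_map hF1.aemeasurable hF2.aemeasurable).1 h
    · simp only [Fin.cons_succ]
      have h3 := (indepFun_iff_map_prod_eq_prod_map_map hG1.aemeasurable hG2.aemeasurable).1
        (hZ.indep 0)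
      simp only [ν]
      rw [Measure.map_map measurable_fst (hG1.prodMk hG2),
        Measure.map_map measurable_snd (hG1.prodMk hG2)]
      exact h3
  have hm1 : Measurable (fun (ω : Ω₁ × (Fin k → Ω₀)) (t : ℝ≥0) =>
      fwd (mk k X₁ Z i) (fun _ => 0) t ω) := measurable_fst.comp (hmi i)
  have hm2 : Measurable (fun (ω : Ω₁ × (Fin k → Ω₀)) (t : ℝ≥0) =>
      bwd (mk k X₁ Z i) (fun _ => 0) t ω) := measurable_snd.comp (hmi i)
  rw [indepFun_iff_map_prod_eq_prod_map_map hm1.aemeasurable hm2.aemeasurable]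
  refine key.trans ?_
  rw [← hl, Measure.map_map measurable_fst (hmi i), Measure.map_map measurable_snd (hmi i)]
  rfl

end prod

/-- A process with continuous paths whose increments over certain windows are almost surely
nonnegative is not a two-sided Brownian motion. -/
theorem not_is2BM_of_ae {Ω : Type*} [MeasurableSpace Ω] {P : Measure Ω} {X : ℝ → Ω → ℝ}
    (hc : ∀ᵐ ω ∂P, Continuous (X · ω))
    (hE : ∀ᵐ ω ∂P, ∀ i : ℕ, 0 ≤ X (kap i + eps i) ω - X (kap i) ω ∧
      0 ≤ X (-kap i - eps i) ω - X (-kap i) ω) : ¬ Is2BM X P := by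
  rintro ⟨S, hS, hf, hb, hind⟩
  have hP : IsProbabilityMeasure P := hf.toIsPreBrownianReal.isGaussianProcess.isProbabilityMeasure
  have hTS := isTS_of_pair hf.toIsPreBrownianReal hb.toIsPreBrownianReal hind
  set Y : ℝ → Ω → ℝ := fun t p => X (S p + t) p - X (S p) p with hY
  have hYe : (fun (t : ℝ) p => fwd X S t.toNNReal p + bwd X S (-t).toNNReal p) = Y := by
    funext t p
    simp only [fwd, bwd, hY]
    rcases le_total 0 t with h | h
    · rw [Real.coe_toNNReal _ h, Real.toNNReal_of_nonpos (by linarith : -t ≤ 0)]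
      simp
    · rw [Real.coe_toNNReal _ (by linarith : 0 ≤ -t), Real.toNNReal_of_nonpos h]
      simp
  rw [hYe] at hTS
  have hcont : ∀ᵐ p ∂P, Continuous (Y · p) := by
    filter_upwards [hc] with p hp
    exact (hp.comp (by fun_prop : Continuous fun t : ℝ => S p + t)).sub continuous_const
  have hno := no_point hTS hcont
  have hF : ∀ᵐ _ ∂P, False := by
    filter_upwards [hno, hE] with p hp hEp
    refine hp ⟨-S p, fun i => ?_⟩
    obtain ⟨h1, h2⟩ := hEp i
    refine ⟨?_, ?_⟩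
    · have e : Y (-S p + kap i + eps i) p - Y (-S p + kap i) p =
          X (kap i + eps i) p - X (kap i) p := by
        simp only [hY]
        have e1 : S p + (-S p + kap i + eps i) = kap i + eps i := by ring
        have e2 : S p + (-S p + kap i) = kap i := by ring
        rw [e1, e2]; ring
      rw [e]; exact h1
    · have e : Y (-S p - kap i - eps i) p - Y (-S p - kap i) p =
          X (-kap i - eps i) p - X (-kap i) p := by
        simp only [hY]
        have e1 : S p + (-S p - kap i - eps i) = -kap i - eps i := by ring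
        have e2 : S p + (-S p - kap i) = -kap i := by ring
        rw [e1, e2]; ring
      rw [e]; exact h2
  have := ae_iff.1 hF
  simp at this

/-- every coordinate of a two-sided Brownian motion is a two-sided Brownian motion -/
theorem is2BM_coord {Ω : Type*} [MeasurableSpace Ω] {P : Measure Ω} {d : ℕ}
    {X : Fin d → ℝ → Ω → ℝ} (h : Is2BMd X P) (i : Fin d) : Is2BM (X i) P := by
  obtain ⟨S, hS, hf, hb, hind⟩ := h
  refine ⟨S, hS, hf.1 i, hb.1 i, ?_⟩
  exact hind.comp (measurable_pi_apply i) (measurable_pi_apply i)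

end Pool.Agent.KS6_56.BD
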