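import Pool.Agent.KS6_56.BD.C

set_option autoImplicit false

open scoped ENNReal NNReal Topology
open MeasureTheory ProbabilityTheory Set Filter
open Pool.Agent.R970.FB

namespace Pool.Agent.KS6_56.BD

lemma measurable_paths {Ω : Type*} [MeasurableSpace Ω] {d : ℕ} {X : Fin d → ℝ → Ω → ℝ}
    (hm : ∀ i t, Measurable (X i t)) : Measurable (fun ω i t => X i t ω) :=
  measurable_pi_lambda _ fun i => measurable_pi_lambda _ fun t => hm i t

/-- the law of the product process is determined by the laws of the factors -/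
theorem mk_law (k : ℕ) {Ω₁ Ω₀ : Type} [MeasurableSpace Ω₁] [MeasurableSpace Ω₀]
    {P₁ : Measure Ω₁} {P₀ : Measure Ω₀} [IsProbabilityMeasure P₁] [IsProbabilityMeasure P₀]
    {X₁ : ℝ → Ω₁ → ℝ} {Z : ℝ → Ω₀ → ℝ} (hm : ∀ t, Measurable (X₁ t))
    (hZm : ∀ t, Measurable (Z t)) :
    (P₁.prod (Measure.pi fun _ : Fin k => P₀)).map (fun ω i t => mk k X₁ Z i t ω) =
      Measure.pi (Fin.cons (P₁.map fun ω t => X₁ t ω) (fun _ => P₀.map fun ω t => Z t ω) :
        Fin (k + 1) → Measure (ℝ → ℝ)) := by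
  have hF : Measurable (fun ω t => X₁ t ω) := measurable_pi_lambda _ hm
  have hG0 : Measurable (fun ω t => Z t ω) := measurable_pi_lambda _ hZm
  have hG : Measurable (Function.uncurry fun (_ : Ω₁) (ω' : Ω₀) (t : ℝ) => Z t ω') :=
    hG0.comp measurable_snd
  have hν' : IsProbabilityMeasure (P₀.map fun ω t => Z t ω) :=
    Measure.isProbabilityMeasure_map hG0.aemeasurable
  have hν : ∀ ω : Ω₁, P₀.map ((fun (_ : Ω₁) (ω' : Ω₀) (t : ℝ) => Z t ω') ω) =
    P₀.map fun ω t => Z t ω := fun _ => rfl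
  have e : (fun i (ω : Ω₁ × (Fin k → Ω₀)) (t : ℝ) => mk k X₁ Z i t ω) =
      fam k (fun ω t => X₁ t ω) (fun (_ : Ω₁) (ω' : Ω₀) (t : ℝ) => Z t ω') := by
    funext i ω
    refine Fin.cases rfl (fun _ => rfl) i
  have h1 := (iIndepFun_iff_map_fun_eq_pi_map fun i =>
    (measurable_fam (k := k) hF hG i).aemeasurable).1
    (fam_indep (k := k) (P₁ := P₁) (P₀ := P₀) hF hG hν)
  have h2 : (fun i => (P₁.prod (Measure.pi fun _ : Fin k => P₀)).map
      (fam k (fun ω t => X₁ t ω) (fun (_ : Ω₁) (ω' : Ω₀) (t : ℝ) => Z t ω') i)) =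
      (Fin.cons (P₁.map fun ω t => X₁ t ω) (fun _ => P₀.map fun ω t => Z t ω) :
        Fin (k + 1) → Measure (ℝ → ℝ)) := by
    funext i
    exact fam_law hF hG hν i
  rw [h2, ← e] at h1
  exact h1

section swap

variable {Ω : Type} [MeasurableSpace Ω] {P : Measure Ω} {B C : ℝ≥0 → Ω → ℝ}

lemma swap_law [IsProbabilityMeasure P] (hBm : ∀ t, Measurable (B t)) (hCm : ∀ t, Measurable (C t))
    (hB : IsPreBrownianReal B P) (hC : IsPreBrownianReal C P)
    (hi : IndepFun (fun ω t => B t ω) (fun ω t => C t ω) P) :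
    P.map (fun ω => ((fun t => B t ω), fun t => C t ω)) =
      P.map (fun ω => ((fun t => C t ω), fun t => B t ω)) := by
  obtain ⟨W, hW⟩ := exists_isW
  rw [(indepFun_iff_map_prod_eq_prod_map_map (measurable_path hBm).aemeasurable
      (measurable_path hCm).aemeasurable).1 hi,
    (indepFun_iff_map_prod_eq_prod_map_map (measurable_path hCm).aemeasurable
      (measurable_path hBm).aemeasurable).1 hi.symm,
    (isPreBrownianReal_iff hW hBm).1 hB, (isPreBrownianReal_iff hW hCm).1 hC]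

lemma swap_comp [IsProbabilityMeasure P] (hBm : ∀ t, Measurable (B t))
    (hCm : ∀ t, Measurable (C t))
    (hB : IsPreBrownianReal B P) (hC : IsPreBrownianReal C P)
    (hi : IndepFun (fun ω t => B t ω) (fun ω t => C t ω) P)
    {Θ : (ℝ≥0 → ℝ) × (ℝ≥0 → ℝ) → ℝ → ℝ} (hΘ : Measurable Θ) :
    P.map (fun ω => Θ ((fun t => B t ω), fun t => C t ω)) =
      P.map (fun ω => Θ ((fun t => C t ω), fun t => B t ω)) := by
  have h := congrArg (fun μ : Measure ((ℝ≥0 → ℝ) × (ℝ≥0 → ℝ)) => μ.map Θ)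
    (swap_law hBm hCm hB hC hi)
  beta_reduce at h
  rw [Measure.map_map hΘ ((measurable_path hBm).prodMk (measurable_path hCm)),
    Measure.map_map hΘ ((measurable_path hCm).prodMk (measurable_path hBm))] at h
  exact h

end swap

/-- the increments of the process over the windows are nonnegative -/
lemma windows {Ω : Type*} {B C : ℝ≥0 → Ω → ℝ} (p : Ω) (i : ℕ) :
    0 ≤ XX B C (kap i + eps i) p - XX B C (kap i) p ∧
      0 ≤ XX B C (-kap i - eps i) p - XX B C (-kap i) p := by
  have hpos : ∀ (b : ℝ≥0 → ℝ) (i : ℕ), 0 ≤ Del i (Psi b) := by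
    intro b i
    have e3 : Del i (Psi b) = Del i (PsiN (i + 1) b) := by
      unfold Del
      have h1 : kap i + eps i ≤ kap (i + 1) := by
        have := kap_gap (Nat.lt_succ_self i)
        have h64 : (64 : ℝ≥0) ≤ kap (i + 1) := by
          refine le_trans ?_ (kap_mono (Nat.zero_le _))
          unfold kap; norm_num
        rw [← NNReal.coe_le_coe] at h64 ⊢
        push_cast at *
        linarith
      rw [Psi_eq h1, Psi_eq ((by simp : kap i ≤ kap i + eps i).trans h1)]
    rw [e3, Del_PsiN _ (Nat.lt_succ_self i)]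
    exact abs_nonneg _
  constructor
  · have e : XX B C (kap i + eps i) p - XX B C (kap i) p = Del i (Psi (B · p)) := by
      simp only [XX, Del]
      have e1 : (kap i + eps i : ℝ) = ((kap i + eps i : ℝ≥0) : ℝ) := by push_cast; ring
      rw [e1, Real.toNNReal_coe, Real.toNNReal_coe,
        Real.toNNReal_of_nonpos (neg_nonpos.2 (NNReal.coe_nonneg (kap i + eps i))),
        Real.toNNReal_of_nonpos (neg_nonpos.2 (NNReal.coe_nonneg (kap i)))]
      ring
    rw [e]
    exact hpos _ i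
  · have e : XX B C (-kap i - eps i) p - XX B C (-kap i) p = Del i (Psi (C · p)) := by
      simp only [XX, Del]
      have e1 : (-kap i - eps i : ℝ) = -((kap i + eps i : ℝ≥0) : ℝ) := by push_cast; ring
      rw [e1, neg_neg, neg_neg, Real.toNNReal_coe, Real.toNNReal_coe,
        Real.toNNReal_of_nonpos (neg_nonpos.2 (NNReal.coe_nonneg (kap i + eps i))),
        Real.toNNReal_of_nonpos (neg_nonpos.2 (NNReal.coe_nonneg (kap i)))]
      ring
    rw [e]
    exact hpos _ i

/-- the set of the paths with nonnegative increments of the first coordinate over the windows -/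
def EE (k : ℕ) : Set (Fin (k + 1) → ℝ → ℝ) :=
  {x | ∀ i : ℕ, 0 ≤ x 0 (kap i + eps i) - x 0 (kap i) ∧
    0 ≤ x 0 (-kap i - eps i) - x 0 (-kap i)}

lemma measurableSet_EE (k : ℕ) : MeasurableSet (EE k) := by
  have h : ∀ a : ℝ, Measurable (fun x : Fin (k + 1) → ℝ → ℝ => x 0 a) := fun a =>
    (measurable_pi_apply a).comp (measurable_pi_apply 0)
  have e : EE k = ⋂ i : ℕ, ({x | 0 ≤ x 0 (kap i + eps i) - x 0 (kap i)} ∩
      {x | 0 ≤ x 0 (-kap i - eps i) - x 0 (-kap i)}) := by
    ext x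
    simp [EE]
  rw [e]
  refine MeasurableSet.iInter fun i => MeasurableSet.inter ?_ ?_
  · exact measurableSet_le measurable_const ((h _).sub (h _))
  · exact measurableSet_le measurable_const ((h _).sub (h _))

theorem main (k : ℕ) : ∃ (Ω : Type) (_ : MeasurableSpace Ω) (P : Measure Ω)
    (X : Fin (k + 1) → ℝ → Ω → ℝ), IsProbabilityMeasure P ∧ (∀ i t, Measurable (X i t)) ∧
    (∀ i ω, Continuous (X i · ω)) ∧ (∀ i ω, X i 0 ω = 0) ∧
    IsFBMd X P ∧ IsBBMd X P ∧ IndepAtd X (fun _ => 0) P ∧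
    P.map (fun ω i t => X i (-t) ω) = P.map (fun ω i t => X i t ω) ∧
    ∀ (Ω' : Type) (_ : MeasurableSpace Ω') (P' : Measure Ω') (X' : Fin (k + 1) → ℝ → Ω' → ℝ),
      (∀ i t, Measurable (X' i t)) → (∀ i, ∀ᵐ ω ∂P', Continuous (X' i · ω)) →
      P'.map (fun ω i t => X' i t ω) ≪ P.map (fun ω i t => X i t ω) →
      ¬ Is2BM (X' 0) P' ∧ ¬ Is2BMd X' P' := by
  obtain ⟨Ω, mΩ, P, B, C, hP, hBm, hCm, hBc, hCc, hB0, hC0, hB, hC, hi⟩ := exists_two
  have hPsi0 : ∀ b : ℝ≥0 → ℝ, Psi b 0 = b 0 := by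
    intro b
    rw [Psi_eq (N := 0) (by simp : (0 : ℝ≥0) ≤ kap 0)]
    exact PsiN_zero _ _
  have hX0 : ∀ (B C : ℝ≥0 → Ω → ℝ), (∀ ω, B 0 ω = 0) → (∀ ω, C 0 ω = 0) → ∀ ω,
      XX B C 0 ω = 0 := by
    intro B C h1 h2 ω
    simp only [XX, neg_zero, Real.toNNReal_zero, hPsi0, h1, h2, add_zero]
  have hYc : ∀ ω, Continuous (YY B C · ω) := fun ω =>
    ((hBc ω).comp (by fun_prop)).add ((hCc ω).comp (by fun_prop))
  have hTS : IsTS (YY B C) P := isTS_YY hB hC hi
  let X₁ : ℝ → Ω × unitInterval → ℝ := fun t p => XX B C t p.1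
  have hX₁m : ∀ t, Measurable (X₁ t) := fun t => (measurable_XX hBm hCm t).comp measurable_fst
  have hX₁c : ∀ ω, Continuous (X₁ · ω) := fun ω => continuous_XX hBc hCc ω.1
  have hBBM : IsBBM X₁ (P.prod (volume : Measure unitInterval)) := by
    unfold IsBBM
    have e : (fun (t : ℝ) => X₁ (-t)) = fun t p => XX C B t p.1 := by
      funext t p
      exact XX_neg t p.1
    rw [e]
    exact isFBM_XX hCm hBm hCc hBc hC hB hi.symm
  have hInd : IndepAt X₁ (fun _ => 0) (P.prod (volume : Measure unitInterval)) := by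
    unfold IndepAt
    have hm : Measurable (fun (b : ℝ≥0 → ℝ) (t : ℝ≥0) => Psi b t - Psi b 0) :=
      measurable_pi_lambda _ fun t =>
        (measurable_pi_iff.1 measurable_Psi t).sub (measurable_pi_iff.1 measurable_Psi 0)
    have h1 := (indep_fst (measurable_path hBm) (measurable_path hCm) hi).comp hm hm
    have e1 : (fun (p : Ω × unitInterval) (t : ℝ≥0) => fwd X₁ (fun _ => 0) t p) =
        (fun (b : ℝ≥0 → ℝ) (t : ℝ≥0) => Psi b t - Psi b 0) ∘ fun p => (B · p.1) := by
      funext p t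
      simp only [X₁, fwd, XX, Function.comp_apply]
      rw [zero_add, Real.toNNReal_coe, Real.toNNReal_of_nonpos (by simp : -(t : ℝ) ≤ 0)]
      simp
    have e2 : (fun (p : Ω × unitInterval) (t : ℝ≥0) => bwd X₁ (fun _ => 0) t p) =
        (fun (b : ℝ≥0 → ℝ) (t : ℝ≥0) => Psi b t - Psi b 0) ∘ fun p => (C · p.1) := by
      funext p t
      simp only [X₁, bwd, XX, Function.comp_apply]
      rw [zero_sub, neg_neg, Real.toNNReal_coe, Real.toNNReal_of_nonpos (by simp : -(t : ℝ) ≤ 0)]
      simp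
    rw [e1, e2]
    exact h1
  -- the laws of the reversed processes
  have hrev1 : (P.prod (volume : Measure unitInterval)).map (fun ω t => X₁ (-t) ω) =
      (P.prod (volume : Measure unitInterval)).map (fun ω t => X₁ t ω) := by
    have hΘ : Measurable (fun (q : (ℝ≥0 → ℝ) × (ℝ≥0 → ℝ)) (t : ℝ) =>
        Psi q.1 t.toNNReal + Psi q.2 (-t).toNNReal) := measurable_pi_lambda _ fun t =>
      ((measurable_pi_iff.1 measurable_Psi _).comp measurable_fst).add
        ((measurable_pi_iff.1 measurable_Psi _).comp measurable_snd)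
    have h := swap_comp hBm hCm hB hC hi hΘ
    have a1 : Measurable (fun ω (t : ℝ) => Psi (B · ω) t.toNNReal + Psi (C · ω) (-t).toNNReal) :=
      hΘ.comp ((measurable_path hBm).prodMk (measurable_path hCm))
    have a2 : Measurable (fun ω (t : ℝ) => Psi (C · ω) t.toNNReal + Psi (B · ω) (-t).toNNReal) :=
      hΘ.comp ((measurable_path hCm).prodMk (measurable_path hBm))
    have hfst : (P.prod (volume : Measure unitInterval)).map Prod.fst = P := by
      rw [Measure.map_fst_prod]; simp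
    have e1 : (fun (ω : Ω × unitInterval) t => X₁ t ω) =
        (fun ω (t : ℝ) => Psi (B · ω) t.toNNReal + Psi (C · ω) (-t).toNNReal) ∘ Prod.fst := rfl
    have e2 : (fun (ω : Ω × unitInterval) t => X₁ (-t) ω) =
        (fun ω (t : ℝ) => Psi (C · ω) t.toNNReal + Psi (B · ω) (-t).toNNReal) ∘ Prod.fst := by
      funext ω t
      exact XX_neg t ω.1
    rw [e1, e2, ← Measure.map_map a1 measurable_fst, ← Measure.map_map a2 measurable_fst, hfst]
    exact h.symm
  have hrev2 : P.map (fun ω t => YY B C (-t) ω) = P.map (fun ω t => YY B C t ω) := by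
    have hΘ : Measurable (fun (q : (ℝ≥0 → ℝ) × (ℝ≥0 → ℝ)) (t : ℝ) =>
        q.1 t.toNNReal + q.2 (-t).toNNReal) := measurable_pi_lambda _ fun t =>
      ((measurable_pi_apply _).comp measurable_fst).add
        ((measurable_pi_apply _).comp measurable_snd)
    have h := swap_comp hBm hCm hB hC hi hΘ
    have e2 : (fun ω t => YY B C (-t) ω) = fun ω (t : ℝ) => C t.toNNReal ω + B (-t).toNNReal ω := by
      funext ω t
      simp only [YY, neg_neg]
      ring
    rw [e2]
    exact h.symm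
  refine ⟨(Ω × unitInterval) × (Fin k → Ω), inferInstance,
    (P.prod (volume : Measure unitInterval)).prod (Measure.pi fun _ => P), mk k X₁ (YY B C),
    inferInstance, measurable_mk k hX₁m (measurable_YY hBm hCm), continuous_mk k hX₁c hYc, ?_,
    isFBMd_mk k hX₁m hX₁c (measurable_YY hBm hCm) hYc hTS
      (isFBM_XX hBm hCm hBc hCc hB hC hi),
    isBBMd_mk k hX₁m hX₁c (measurable_YY hBm hCm) hYc hTS hBBM,
    indepAtd_mk k hX₁m hX₁c (measurable_YY hBm hCm) hYc hTS hInd, ?_, ?_⟩
  · intro i ω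
    refine Fin.cases ?_ (fun j => ?_) i
    · exact hX0 B C hB0 hC0 ω.1.1
    · simp only [mk, Fin.cons_succ, YY, neg_zero, Real.toNNReal_zero, hB0, hC0, add_zero]
  · have e : (fun (ω : (Ω × unitInterval) × (Fin k → Ω)) i t => mk k X₁ (YY B C) i (-t) ω) =
        fun ω i t => mk k (fun t => X₁ (-t)) (fun t => YY B C (-t)) i t ω := by
      funext ω i t
      exact congrFun (congrFun (congrFun (mk_neg k X₁ (YY B C)) i) t) ω
    rw [e, mk_law k (fun t => hX₁m _) (fun t => measurable_YY hBm hCm _),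
      mk_law k hX₁m (measurable_YY hBm hCm)]
    congr 1
    funext i
    refine Fin.cases ?_ (fun j => ?_) i
    · exact hrev1
    · exact hrev2
  · intro Ω' _ P' X' hm' hc' hac
    have hm := measurable_paths (measurable_mk k hX₁m (measurable_YY hBm hCm))
    have h0 : ((P.prod (volume : Measure unitInterval)).prod (Measure.pi fun _ : Fin k => P)).map
        (fun ω i t => mk k X₁ (YY B C) i t ω) (EE k)ᶜ = 0 := by
      rw [Measure.map_apply hm (measurableSet_EE k).compl]
      have : (fun ω i t => mk k X₁ (YY B C) i t ω) ⁻¹' (EE k)ᶜ = ∅ := by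
        ext ω
        simp only [Set.mem_preimage, Set.mem_compl_iff, Set.mem_empty_iff_false, iff_false,
          not_not]
        exact fun i => windows (B := B) (C := C) ω.1.1 i
      rw [this, measure_empty]
    have h1 := hac h0
    rw [Measure.map_apply (measurable_paths hm') (measurableSet_EE k).compl] at h1
    have h2 : ∀ᵐ ω ∂P', ∀ i : ℕ, 0 ≤ X' 0 (kap i + eps i) ω - X' 0 (kap i) ω ∧
        0 ≤ X' 0 (-kap i - eps i) ω - X' 0 (-kap i) ω := by
      rw [ae_iff]
      exact h1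
    have h3 := not_is2BM_of_ae (hc' 0) h2
    exact ⟨h3, fun h => h3 (is2BM_coord h 0)⟩

end Pool.Agent.KS6_56.BD
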